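import Pool.Agent.N105.LT.Defs
import Pool.Agent.Helper717.LT.P_sys_psd
import Pool.Agent.Helper717.LT.P_gam_der
import Pool.Agent.Helper717.LT.P_gam_psd

/-!
# The matrix inequality in one variable (leaf MAIN of project LG of helper105)
-/

set_option autoImplicit false

open MeasureTheory Set Filter Topology Real
open scoped Matrix

namespace Pool.Agent.N187.LG.Main

open LTd Pool.Agent.N105.LT

theorem psd_add {n : ℕ} {M N : Mat n} (hM : PSD M) (hN : PSD N) : PSD (M + N) := by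
  refine ⟨fun i j => by rw [Matrix.add_apply, Matrix.add_apply, hM.1 i j, hN.1 i j], fun v => ?_⟩
  have h1 := hM.2 v
  have h2 := hN.2 v
  have h3 : ∑ i, ∑ j, v i * v j * (M + N) i j =
      ∑ i, ∑ j, v i * v j * M i j + ∑ i, ∑ j, v i * v j * N i j := by
    simp only [Matrix.add_apply, mul_add, Finset.sum_add_distrib]
  rw [h3]
  exact add_nonneg h1 h2

theorem pol_sym {n : ℕ} (K : ℕ) (c : ℕ → ℝ) {B : Mat n} (hB : ∀ i j, B i j = B j i) (i j : Fin n) :
    Pol K c B i j = Pol K c B j i := by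
  have hBt : Bᵀ = B := by
    ext i j
    exact hB j i
  have h1 : (Pol K c B)ᵀ = Pol K c B := by
    unfold Pol
    rw [Matrix.transpose_sum]
    refine Finset.sum_congr rfl fun a _ => ?_
    rw [Matrix.transpose_smul, Matrix.transpose_pow, hBt]
  conv_lhs => rw [← h1]
  rfl

theorem main1
    (hpt : ∀ (n : ℕ) (θ : ℝ), 0 < θ → θ < 1 → ∀ (δ : ℝ), 0 < δ →
      ∃ (K : ℕ) (c : ℕ → ℝ), ∀ (B R : Mat n), (∀ i j, B i j = B j i) →
      PSD ((1 / 2 : ℝ) • 1 + B) → PSD ((1 / 2 : ℝ) • 1 - B) → PSD R →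
      (R * DPol K c B R * R).trace + (Pol K c B * Pol K c B * (R * R * R)).trace +
        (θ ^ 2 * (π ^ 2 / 3) - δ) * (R * R * R).trace ≤ 0)
    (halg : ∀ {n : ℕ} (R S Q P : Mat n), (∀ i j, R i j = R j i) → (∀ i j, P i j = P j i) →
      (∀ X Y : Mat n,
        0 ≤ (X * Q * Xᵀ).trace - 2 * (X * S * Yᵀ).trace + (Y * R * Yᵀ).trace) →
      ∀ (f : ℝ), FB R S f →
      2 * (S * (P * R)).trace + 2 * (S * (R * P)).trace ≤
        Q.trace + 3 * f + (P * P * (R * R * R)).trace)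
    (hder : ∀ {n : ℕ} (K : ℕ) (c : ℕ → ℝ) {B R S : ℝ → Mat n} (x : ℝ),
      (∀ i j, B x i j = B x j i) → (∀ i j, R x i j = R x j i) →
      (∀ x i j, HasDerivAt (fun t => B t i j) (R x i j) x) →
      (∀ x i j, HasDerivAt (fun t => R t i j) (S x i j + S x j i) x) →
      HasDerivAt (fun t => (R t * Pol K c (B t) * R t).trace)
        (2 * (S x * (Pol K c (B x) * R x)).trace + 2 * (S x * (R x * Pol K c (B x))).trace +
          (R x * DPol K c (B x) (R x) * R x).trace) x)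
    {n : ℕ} {R S Q : ℝ → Mat n} (h : Sys R S Q) (hT : PSD (1 - Tot R))
    (f : ℝ → ℝ) (hf : Integrable f) (hF : ∀ x, FB (R x) (S x) (f x))
    {θ δ : ℝ} (hθ0 : 0 < θ) (hθ : θ < 1) (hδ : 0 < δ) :
    (θ ^ 2 * (π ^ 2 / 3) - δ) * ∫ x, (R x * R x * R x).trace ≤
      (∫ x, (Q x).trace) + 3 * ∫ x, f x := by
  obtain ⟨K, c, hK⟩ := hpt n θ hθ0 hθ δ hδ
  obtain ⟨B, hBdef⟩ : ∃ B : ℝ → Mat n, B = fun x => Gam R x - (1 / 2 : ℝ) • 1 := ⟨_, rfl⟩
  have hBd : ∀ x i j, HasDerivAt (fun t => B t i j) (R x i j) x := by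
    intro x i j
    rw [hBdef]
    exact (gam_der h x i j).sub_const _
  have hRc : Continuous R := by
    refine continuous_matrix (fun i j => ?_)
    exact continuous_iff_continuousAt.2 (fun x => (h.der x i j).continuousAt)
  have hBc : Continuous B := by
    refine continuous_matrix (fun i j => ?_)
    exact continuous_iff_continuousAt.2 (fun x => (hBd x i j).continuousAt)
  have hSc : Continuous S := continuous_matrix h.cS
  have hQc : Continuous Q := continuous_matrix h.cQ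
  have hBs : ∀ x i j, B x i j = B x j i := by
    intro x i j
    rw [hBdef]
    have h1 := (gam_psd h x).1.1 i j
    have h2 : (1 : Mat n) i j = (1 : Mat n) j i := by
      rw [Matrix.one_apply, Matrix.one_apply]
      simp only [eq_comm]
    show Gam R x i j - (1 / 2 : ℝ) * (1 : Mat n) i j = Gam R x j i - (1 / 2 : ℝ) * (1 : Mat n) j i
    rw [h1, h2]
  obtain ⟨M, hM⟩ := h.supp
  have hcs : ∀ g : ℝ → ℝ, Continuous g → (∀ x, R x = 0 → S x = 0 → Q x = 0 → g x = 0) →
      Integrable g := by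
    intro g hg hg0
    refine hg.integrable_of_hasCompactSupport
      (HasCompactSupport.intro (isCompact_Icc (a := -M) (b := M)) ?_)
    intro x hx
    have h1 : M < |x| := by
      by_contra hc
      push Not at hc
      exact hx (mem_Icc.2 (abs_le.1 hc))
    obtain ⟨h2, h3, h4⟩ := hM x h1
    exact hg0 x h2 h3 h4
  have hPc : Continuous (fun x => Pol K c (B x)) := by
    unfold Pol
    fun_prop
  have hdc : ∀ a : ℕ, Continuous (fun x => dpow (B x) (R x) a) := by
    intro a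
    unfold dpow
    fun_prop
  have hDc : Continuous (fun x => DPol K c (B x) (R x)) := by
    unfold DPol
    exact continuous_finset_sum _ fun a _ => (hdc a).const_smul (c a)
  have hΦd := fun x => hder K c x (hBs x) (h.symR x) hBd h.der
  have hΦi : Integrable (fun t => (R t * Pol K c (B t) * R t).trace) := by
    refine hcs _ (by fun_prop) (fun x h1 _ _ => ?_)
    simp [h1]
  have hΦ'i : Integrable (fun x => 2 * (S x * (Pol K c (B x) * R x)).trace +
      2 * (S x * (R x * Pol K c (B x))).trace + (R x * DPol K c (B x) (R x) * R x).trace) := by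
    refine hcs _ (by fun_prop) (fun x h1 _ _ => ?_)
    simp [h1]
  have hint0 := integral_eq_zero_of_hasDerivAt_of_integrable hΦd hΦ'i hΦi
  have hR3i : Integrable (fun x => (R x * R x * R x).trace) := by
    refine hcs _ (by fun_prop) (fun x h1 _ _ => ?_)
    simp [h1]
  have hQi : Integrable (fun x => (Q x).trace) := by
    refine hcs _ (by fun_prop) (fun x _ _ h1 => ?_)
    simp [h1]
  have hptw : ∀ x, (2 * (S x * (Pol K c (B x) * R x)).trace +
      2 * (S x * (R x * Pol K c (B x))).trace + (R x * DPol K c (B x) (R x) * R x).trace) +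
      (θ ^ 2 * (π ^ 2 / 3) - δ) * (R x * R x * R x).trace ≤ (Q x).trace + 3 * f x := by
    intro x
    have h1 := halg (R x) (S x) (Q x) (Pol K c (B x)) (h.symR x) (pol_sym K c (hBs x)) (h.key x)
      (f x) (hF x)
    have h2 := hK (B x) (R x) (hBs x)
      (by
        have e : (1 / 2 : ℝ) • (1 : Mat n) + B x = Gam R x := by
          rw [hBdef]
          module
        rw [e]
        exact (gam_psd h x).1)
      (by
        have e : (1 / 2 : ℝ) • (1 : Mat n) - B x = (1 - Tot R) + (Tot R - Gam R x) := by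
          rw [hBdef]
          module
        rw [e]
        exact psd_add hT (gam_psd h x).2)
      (sys_psd h x)
    linarith
  have hfin := integral_mono (hΦ'i.add (hR3i.const_mul (θ ^ 2 * (π ^ 2 / 3) - δ)))
    (hQi.add (hf.const_mul 3)) hptw
  have e5 := integral_add hΦ'i (hR3i.const_mul (θ ^ 2 * (π ^ 2 / 3) - δ))
  have e6 := integral_add hQi (hf.const_mul 3)
  rw [hint0, zero_add, integral_const_mul] at e5
  rw [integral_const_mul] at e6
  calc _ = _ := e5.symm
    _ ≤ _ := hfin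
    _ = _ := e6

theorem main
    (hpt : ∀ (n : ℕ) (θ : ℝ), 0 < θ → θ < 1 → ∀ (δ : ℝ), 0 < δ →
      ∃ (K : ℕ) (c : ℕ → ℝ), ∀ (B R : Mat n), (∀ i j, B i j = B j i) →
      PSD ((1 / 2 : ℝ) • 1 + B) → PSD ((1 / 2 : ℝ) • 1 - B) → PSD R →
      (R * DPol K c B R * R).trace + (Pol K c B * Pol K c B * (R * R * R)).trace +
        (θ ^ 2 * (π ^ 2 / 3) - δ) * (R * R * R).trace ≤ 0)
    (halg : ∀ {n : ℕ} (R S Q P : Mat n), (∀ i j, R i j = R j i) → (∀ i j, P i j = P j i) →
      (∀ X Y : Mat n,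
        0 ≤ (X * Q * Xᵀ).trace - 2 * (X * S * Yᵀ).trace + (Y * R * Yᵀ).trace) →
      ∀ (f : ℝ), FB R S f →
      2 * (S * (P * R)).trace + 2 * (S * (R * P)).trace ≤
        Q.trace + 3 * f + (P * P * (R * R * R)).trace)
    (hder : ∀ {n : ℕ} (K : ℕ) (c : ℕ → ℝ) {B R S : ℝ → Mat n} (x : ℝ),
      (∀ i j, B x i j = B x j i) → (∀ i j, R x i j = R x j i) →
      (∀ x i j, HasDerivAt (fun t => B t i j) (R x i j) x) →
      (∀ x i j, HasDerivAt (fun t => R t i j) (S x i j + S x j i) x) →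
      HasDerivAt (fun t => (R t * Pol K c (B t) * R t).trace)
        (2 * (S x * (Pol K c (B x) * R x)).trace + 2 * (S x * (R x * Pol K c (B x))).trace +
          (R x * DPol K c (B x) (R x) * R x).trace) x)
    {n : ℕ} {R S Q : ℝ → Mat n} (h : Sys R S Q) (hT : PSD (1 - Tot R))
    (f : ℝ → ℝ) (hf : Integrable f) (hF : ∀ x, FB (R x) (S x) (f x)) :
    π ^ 2 / 3 * ∫ x, (R x * R x * R x).trace ≤ (∫ x, (Q x).trace) + 3 * ∫ x, f x := by
  have key := fun (θ δ : ℝ) (hθ0 : 0 < θ) (hθ : θ < 1) (hδ : 0 < δ) =>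
    main1 hpt halg hder h hT f hf hF hθ0 hθ hδ
  obtain ⟨I, hI⟩ : ∃ I : ℝ, I = ∫ x, (R x * R x * R x).trace := ⟨_, rfl⟩
  obtain ⟨J, hJ⟩ : ∃ J : ℝ, J = (∫ x, (Q x).trace) + 3 * ∫ x, f x := ⟨_, rfl⟩
  rw [← hI, ← hJ]
  rw [← hI, ← hJ] at key
  have h1 : ∀ θ : ℝ, 0 < θ → θ < 1 → θ ^ 2 * (π ^ 2 / 3) * I ≤ J := by
    intro θ hθ0 hθ
    have h2 : Filter.Tendsto (fun δ : ℝ => (θ ^ 2 * (π ^ 2 / 3) - δ) * I)
        (nhdsWithin 0 (Set.Ioi 0)) (nhds ((θ ^ 2 * (π ^ 2 / 3) - 0) * I)) := by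
      have h3 : Continuous (fun δ : ℝ => (θ ^ 2 * (π ^ 2 / 3) - δ) * I) := by fun_prop
      exact (h3.tendsto 0).mono_left nhdsWithin_le_nhds
    rw [sub_zero] at h2
    refine le_of_tendsto h2 ?_
    filter_upwards [self_mem_nhdsWithin] with δ hδ
    exact key θ δ hθ0 hθ hδ
  have h2 : Filter.Tendsto (fun θ : ℝ => θ ^ 2 * (π ^ 2 / 3) * I)
      (nhdsWithin 1 (Set.Iio 1)) (nhds ((1 : ℝ) ^ 2 * (π ^ 2 / 3) * I)) := by
    have h3 : Continuous (fun θ : ℝ => θ ^ 2 * (π ^ 2 / 3) * I) := by fun_prop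
    exact (h3.tendsto 1).mono_left nhdsWithin_le_nhds
  rw [one_pow, one_mul] at h2
  refine le_of_tendsto h2 ?_
  filter_upwards [Ioo_mem_nhdsLT (zero_lt_one' ℝ)] with θ hθ
  exact h1 θ hθ.1 hθ.2

end Pool.Agent.N187.LG.Main
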